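import Pool.Agent.H207.BT.Stm3

/-!
# Project BT: `S_REAL1`, by taking logarithms
-/

set_option autoImplicit false

namespace Pool.Agent.H693.BT207

/-- The basic inequalities in logarithms. -/
theorem core {ℓ lC lc lB a β G L L' p n m M : ℝ} (hℓ : 0 < ℓ) (hlC : ℓ ≤ lC) (hβ : 0 < β)
    (hβC : β * lC ≤ ℓ / 16) (ha : 0 ≤ a) (hG : 0 < G) (h1 : L ≤ L') (hn : 0 ≤ n)
    (hp : p ≤ n * lC) (hρ : p ≤ L')
    (hH : lc + (n + 1) * ℓ ≤ lB + m * (p - L' - a) + p) (hm : 1 ≤ m) (hmM : m ≤ M)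
    (hG1 : lB - lc ≤ G) (hG2 : M * a ≤ G) :
    β ≤ 1 / 16 ∧ 0 ≤ m * a ∧ m * a ≤ G ∧ (m + 1) * (L' - p) ≤ L' + G ∧
      2 * (L' - p) ≤ L' + G ∧ 8 * (β * L) - G ≤ n * ℓ := by
  have hlC0 : 0 < lC := by linarith
  have hβ16 : β ≤ 1 / 16 := by
    by_contra h
    push Not at h
    have : 1 / 16 * lC < β * lC := mul_lt_mul_of_pos_right h hlC0
    linarith
  have e0 : 0 ≤ (n + 1) * ℓ := by positivity
  have e1 : 0 ≤ m * a := mul_nonneg (by linarith) ha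
  have e2 : m * a ≤ G := le_trans (mul_le_mul_of_nonneg_right hmM ha) hG2
  have F1 : (m + 1) * (L' - p) ≤ L' + G := by nlinarith
  have F2 : 2 * (L' - p) ≤ L' + G := by
    have : 2 * (L' - p) ≤ (m + 1) * (L' - p) :=
      mul_le_mul_of_nonneg_right (by linarith) (by linarith)
    linarith
  refine ⟨hβ16, e1, e2, F1, F2, ?_⟩
  have g1 : (L - G) / 2 ≤ p := by linarith
  have g2 : β * ((L - G) / 2) ≤ β * p := mul_le_mul_of_nonneg_left g1 hβ.le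
  have g3 : β * p ≤ β * (n * lC) := mul_le_mul_of_nonneg_left hp hβ.le
  have g4 : n * (β * lC) ≤ n * (ℓ / 16) := mul_le_mul_of_nonneg_left hβC hn
  have g5 : β * G ≤ 1 / 16 * G := mul_le_mul_of_nonneg_right hβ16 hG.le
  nlinarith

theorem A1 {ℓ lc lB a β G L L' p n m e : ℝ} (hℓ : 0 < ℓ)
    (hH : lc + (n + 1) * ℓ ≤ lB + m * (p - L' - a) + p) (hG1 : lB - lc ≤ G) (hG4 : a ≤ G)
    (he : e ≤ G) (hG : 0 < G) (F3 : 8 * (β * L) - G ≤ n * ℓ) (h2 : L' ≤ (1 + β / 8) * L)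
    (hLb : 12 * G ≤ β * L) : e - L ≤ (m + 1) * (p - L' - a) := by
  have h3 : L' ≤ L + 1 / 8 * (β * L) := by linarith
  obtain ⟨X, hX⟩ : ∃ X, X = m * (p - L' - a) := ⟨_, rfl⟩
  obtain ⟨Y, hY⟩ : ∃ Y, Y = n * ℓ := ⟨_, rfl⟩
  have h4 : lc + Y + ℓ ≤ lB + X + p := by rw [hX, hY]; linarith
  have h5 : (m + 1) * (p - L' - a) = X + (p - L' - a) := by rw [hX]; ring
  rw [h5]
  rw [← hY] at F3
  linarith

theorem A3 {ℓ lc lB a β G L L' p n m u' : ℝ} (hℓ : 0 < ℓ) (hβ : 0 < β) (hβ16 : β ≤ 1 / 16)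
    (hH : lc + (n + 1) * ℓ ≤ lB + m * (p - L' - a) + p) (hG1 : lB - lc ≤ G) (hG4 : a ≤ G)
    (hG : 0 < G) (F1 : (m + 1) * (L' - p) ≤ L' + G) (F3 : 8 * (β * L) - G ≤ n * ℓ)
    (hρ : p ≤ L') (e1 : 0 ≤ m * a) (e2 : m * a ≤ G) (h2 : L' ≤ (1 + β / 8) * L)
    (hLb : 12 * G ≤ β * L) (hβL : β * L ≤ 1 / 16 * L)
    (hmu : m * ((1 + β) * (p - L' - a)) ≤ m * u') : a ≤ m * u' + p := by
  have k1 : β * (m * a) ≤ 1 / 16 * (m * a) := mul_le_mul_of_nonneg_right hβ16 e1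
  have k2 : m * (L' - p) ≤ L' + G := by linarith
  have k3 : β * (m * (L' - p)) ≤ β * (L' + G) := mul_le_mul_of_nonneg_left k2 hβ.le
  have k4 : β * L' ≤ β * ((1 + β / 8) * L) := mul_le_mul_of_nonneg_left h2 hβ.le
  have k5 : β * (β * L) ≤ β * (1 / 16 * L) := mul_le_mul_of_nonneg_left hβL hβ.le
  have k6 : β * G ≤ 1 / 16 * G := mul_le_mul_of_nonneg_right hβ16 hG.le
  obtain ⟨X, hX⟩ : ∃ X, X = m * (L' - p) := ⟨_, rfl⟩
  obtain ⟨Y, hY⟩ : ∃ Y, Y = n * ℓ := ⟨_, rfl⟩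
  obtain ⟨Z, hZ⟩ : ∃ Z, Z = m * a := ⟨_, rfl⟩
  have h4 : lc + Y + ℓ ≤ lB - X - Z + p := by rw [hX, hY, hZ]; linarith
  have h5 : m * ((1 + β) * (p - L' - a)) = -X - Z - β * X - β * Z := by rw [hX, hZ]; ring
  rw [h5] at hmu
  rw [← hX] at k3
  rw [← hY] at F3
  rw [← hZ] at k1 e2
  have k7 : β * L' ≤ β * L + 1 / 8 * (β * (β * L)) := by linarith
  have k8 : β * (β * L) ≤ 1 / 16 * (β * L) := by linarith
  have k9 : β * X ≤ β * L' + β * G := by linarith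
  linarith

theorem A4 {a β G L L' p g u' : ℝ} (hβ : 0 < β) (hβ16 : β ≤ 1 / 16) (ha : 0 ≤ a) (hG4 : a ≤ G)
    (hG : 0 < G) (hG7 : g ≤ G) (F2 : 2 * (L' - p) ≤ L' + G) (h2 : L' ≤ (1 + β / 8) * L)
    (hLb : 12 * G ≤ β * L) (hβL : β * L ≤ 1 / 16 * L)
    (hu1 : (1 + β) * (p - L' - a) ≤ u') : (1 + β) * -L ≤ u' - (g + p) := by
  have k1 : β * a ≤ 1 / 16 * a := mul_le_mul_of_nonneg_right hβ16 ha
  have k2 : β * (2 * (L' - p)) ≤ β * (L' + G) := mul_le_mul_of_nonneg_left F2 hβ.le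
  have k4 : β * L' ≤ β * ((1 + β / 8) * L) := mul_le_mul_of_nonneg_left h2 hβ.le
  have k5 : β * (β * L) ≤ β * (1 / 16 * L) := mul_le_mul_of_nonneg_left hβL hβ.le
  have k6 : β * G ≤ 1 / 16 * G := mul_le_mul_of_nonneg_right hβ16 hG.le
  have k7 : β * L' ≤ β * L + 1 / 8 * (β * (β * L)) := by linarith
  have k8 : β * (β * L) ≤ 1 / 16 * (β * L) := by linarith
  have k9 : L' ≤ L + 1 / 8 * (β * L) := by linarith
  linarith

theorem B3 {a β G L L' p m v d u' : ℝ} (hβ16 : β ≤ 1 / 16) (hG : 0 < G)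
    (hG5 : d ≤ G) (hm : 1 ≤ m) (hv0 : 0 ≤ v) (hvm : (m + 1) * v = d) (h1 : L ≤ L')
    (hLb : 12 * G ≤ β * L) (hβL : β * L ≤ 1 / 16 * L) (h4 : -v ≤ p - L' - a)
    (hmu : m * ((1 + β) * -v) ≤ m * u') : a ≤ m * u' + p := by
  have k0 : 0 ≤ m * v := mul_nonneg (by linarith) hv0
  have k1 : β * (m * v) ≤ 1 / 16 * (m * v) := mul_le_mul_of_nonneg_right hβ16 k0
  obtain ⟨X, hX⟩ : ∃ X, X = m * v := ⟨_, rfl⟩
  have h5 : m * ((1 + β) * -v) = -X - β * X := by rw [hX]; ring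
  have h6 : X + v = d := by rw [hX, ← hvm]; ring
  rw [h5] at hmu
  rw [← hX] at k1 k0
  linarith

theorem B4 {β G L L' p m v d g u' : ℝ} (hβ16 : β ≤ 1 / 16) (hG : 0 < G)
    (hG5 : d ≤ G) (hG7 : g ≤ G) (hm : 1 ≤ m) (hv0 : 0 ≤ v) (hvm : (m + 1) * v = d)
    (hρ : p ≤ L') (h2 : L' ≤ (1 + β / 8) * L) (hLb : 12 * G ≤ β * L)
    (hu1 : (1 + β) * -v ≤ u') : (1 + β) * -L ≤ u' - (g + p) := by
  have k0 : 0 ≤ m * v := mul_nonneg (by linarith) hv0
  have k4 : β * v ≤ 1 / 16 * v := mul_le_mul_of_nonneg_right hβ16 hv0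
  have h6 : m * v + v = d := by rw [← hvm]; ring
  have k9 : L' ≤ L + 1 / 8 * (β * L) := by linarith
  linarith

theorem t_REAL1 : Pool.Agent.H207.BT.S_REAL1 := by
  intro C c μ B K₀ β δ₁ M hc hμ hμC hB hK hβ hβC hδ₁ hδ₁1
  have hB0 : 0 < B := by linarith
  have hK0 : 0 < K₀ := by linarith
  have hC0 : 0 < C := by linarith
  have hμ0 : 0 < μ := by linarith
  have hA0 : 0 < 2 * K₀ * B := by positivity
  have hKB1 : 1 ≤ K₀ * B := by nlinarith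
  have hA1 : 1 ≤ 2 * K₀ * B := by nlinarith
  obtain ⟨a, ha⟩ : ∃ a, a = Real.log (2 * K₀ * B) := ⟨_, rfl⟩
  obtain ⟨d, hd⟩ : ∃ d, d = -Real.log δ₁ := ⟨_, rfl⟩
  obtain ⟨e, he⟩ : ∃ e, e = Real.log (2 + K₀ * B) := ⟨_, rfl⟩
  obtain ⟨g, hg⟩ : ∃ g, g = Real.log (B * K₀) := ⟨_, rfl⟩
  have ha0 : 0 ≤ a := ha ▸ Real.log_nonneg hA1
  have hd0 : 0 ≤ d := by
    have := Real.log_nonpos hδ₁.le hδ₁1
    linarith
  have he0 : 0 ≤ e := he ▸ Real.log_nonneg (by linarith)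
  have hg0 : 0 ≤ g := hg ▸ Real.log_nonneg (by nlinarith)
  have hM0 : (0 : ℝ) ≤ M := Nat.cast_nonneg M
  obtain ⟨G, hG⟩ : ∃ G, G = 1 + |Real.log c| + |Real.log B| + (M : ℝ) * a + a +
      (M : ℝ) * d + d + e + g := ⟨_, rfl⟩
  have hc1 : -Real.log c ≤ |Real.log c| := neg_le_abs _
  have hB1 : Real.log B ≤ |Real.log B| := le_abs_self _
  have hc2 : 0 ≤ |Real.log c| := abs_nonneg _
  have hB2 : 0 ≤ |Real.log B| := abs_nonneg _
  have hMa : 0 ≤ (M : ℝ) * a := mul_nonneg hM0 ha0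
  have hMd : 0 ≤ (M : ℝ) * d := mul_nonneg hM0 hd0
  have hGpos : 0 < G := by linarith
  have hG1 : Real.log B - Real.log c ≤ G := by linarith
  have hG2 : (M : ℝ) * a ≤ G := by linarith
  have hG3 : (M : ℝ) * d ≤ G := by linarith
  have hG4 : a ≤ G := by linarith
  have hG5 : d ≤ G := by linarith
  have hG6 : e ≤ G := by linarith
  have hG7 : g ≤ G := by linarith
  refine ⟨Real.exp (-(12 * G / β)), Real.exp_pos _, ?_⟩
  intro δ δ' P N m hδ hδb hδδ' hδ'δ hm hmM hP hPC hR hH y hy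
  have hδ' : 0 < δ' := lt_of_lt_of_le (Real.rpow_pos_of_pos hδ _) hδδ'
  have hm1 : (1 : ℝ) ≤ m := by exact_mod_cast hm
  have hmM' : (m : ℝ) ≤ M := by exact_mod_cast hmM
  obtain ⟨L, hL⟩ : ∃ L, L = -Real.log δ := ⟨_, rfl⟩
  obtain ⟨L', hL'⟩ : ∃ L', L' = -Real.log δ' := ⟨_, rfl⟩
  obtain ⟨p, hp⟩ : ∃ p, p = Real.log P := ⟨_, rfl⟩
  have hLb : 12 * G ≤ β * L := by
    have h := Real.log_lt_log hδ hδb
    rw [Real.log_exp] at h
    have h2 : 12 * G / β < L := by linarith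
    have h3 := (div_lt_iff₀ hβ).1 h2
    linarith
  have h1 : L ≤ L' := by
    have := Real.log_le_log hδ' hδ'δ
    linarith
  have h2 : L' ≤ (1 + β / 8) * L := by
    have h := Real.log_le_log (Real.rpow_pos_of_pos hδ _) hδδ'
    rw [Real.log_rpow hδ] at h
    rw [hL, hL']
    linarith
  have hp' : p ≤ N * Real.log C := by
    have h := Real.log_le_log hP hPC
    rw [Real.log_pow] at h
    rw [hp]; exact h
  have hRpos : 0 < δ' * P := mul_pos hδ' hP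
  have hlR : Real.log (δ' * P) = p - L' := by
    rw [Real.log_mul hδ'.ne' hP.ne', hp, hL']; ring
  have hρ : p ≤ L' := by
    have h := Real.log_nonpos hRpos.le hR
    rw [hlR] at h
    linarith
  have hRA : 0 < δ' * P / (2 * K₀ * B) := div_pos hRpos hA0
  have hlRA : Real.log (δ' * P / (2 * K₀ * B)) = p - L' - a := by
    rw [Real.log_div hRpos.ne' hA0.ne', hlR, ha]
  have hH' : Real.log c + ((N : ℝ) + 1) * Real.log μ ≤
      Real.log B + m * (p - L' - a) + p := by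
    have h := Real.log_le_log (by positivity) hH
    rw [Real.log_mul hc.ne' (by positivity), Real.log_pow, Real.log_mul (by positivity) hP.ne',
      Real.log_mul hB0.ne' (by positivity), Real.log_pow, hlRA, ← hp] at h
    push_cast at h
    exact h
  have hℓ : 0 < Real.log μ := Real.log_pos hμ
  have hlC : Real.log μ ≤ Real.log C := Real.log_le_log hμ0 hμC
  obtain ⟨hβ16, e1, e2, F1, F2, F3⟩ := core (M := (M : ℝ)) hℓ hlC hβ hβC ha0 hGpos h1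
    (Nat.cast_nonneg N) hp' hρ hH' hm1 hmM' hG1 hG2
  have hL0 : 0 < L := by
    by_contra h
    push Not at h
    have := mul_nonpos_of_nonneg_of_nonpos hβ.le h
    linarith
  have hβL : β * L ≤ 1 / 16 * L := mul_le_mul_of_nonneg_right hβ16 hL0.le
  have hm10 : (0 : ℝ) < (m : ℝ) + 1 := by linarith
  -- `y`
  have hyq : 0 < δ₁ ^ ((1 : ℝ) / ((m : ℝ) + 1)) := Real.rpow_pos_of_pos hδ₁ _
  have hlq : Real.log (δ₁ ^ ((1 : ℝ) / ((m : ℝ) + 1))) = -(d / ((m : ℝ) + 1)) := by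
    rw [Real.log_rpow hδ₁, hd]
    ring
  have hy0 : 0 < y := by
    rw [hy]
    exact lt_min hRA hyq
  obtain ⟨u, hu⟩ : ∃ u, u = Real.log y := ⟨_, rfl⟩
  obtain ⟨v, hv⟩ : ∃ v, v = d / ((m : ℝ) + 1) := ⟨_, rfl⟩
  have hvm : ((m : ℝ) + 1) * v = d := by
    rw [hv]
    field_simp
  have hv0 : 0 ≤ v := by
    rw [hv]
    positivity
  have hcase : (u = p - L' - a ∧ u ≤ -v) ∨ (u = -v ∧ u ≤ p - L' - a) := by
    rcases le_total (δ' * P / (2 * K₀ * B)) (δ₁ ^ ((1 : ℝ) / ((m : ℝ) + 1))) with h | h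
    · left
      have h3 := Real.log_le_log hRA h
      rw [min_eq_left h] at hy
      rw [hlRA, hlq, ← hv] at h3
      rw [hu, hy, hlRA]
      exact ⟨rfl, h3⟩
    · right
      have h3 := Real.log_le_log hyq h
      rw [min_eq_right h] at hy
      rw [hlRA, hlq, ← hv] at h3
      rw [hu, hy, hlq, ← hv]
      exact ⟨rfl, h3⟩
  have key1 : e - L ≤ ((m : ℝ) + 1) * u := by
    rcases hcase with ⟨h3, -⟩ | ⟨h3, -⟩
    · rw [h3]
      exact A1 hℓ hH' hG1 hG4 hG6 hGpos F3 h2 hLb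
    · have h5 : ((m : ℝ) + 1) * u = -d := by rw [h3, ← hvm]; ring
      rw [h5]
      clear hH hH' hmM' hPC hy hyq hlq
      linarith
  have key2 : ((m : ℝ) + 1) * u ≤ -d := by
    have : u ≤ -v := by
      rcases hcase with ⟨-, h3⟩ | ⟨h3, -⟩
      · exact h3
      · exact h3.le
    have h4 : ((m : ℝ) + 1) * u ≤ ((m : ℝ) + 1) * (-v) :=
      mul_le_mul_of_nonneg_left this hm10.le
    linarith
  refine ⟨hy0, ?_, ?_, ?_⟩
  · rw [← Real.log_le_log_iff (by positivity) (by positivity), Real.log_mul (by positivity) hδ.ne',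
      Real.log_pow, ← he, ← hu]
    push_cast
    linarith
  · rw [← Real.log_le_log_iff (by positivity) hδ₁, Real.log_pow, ← hu]
    push_cast
    linarith
  · intro y' hy'1 hy'2
    have hy'0 : 0 < y' := lt_of_lt_of_le (Real.rpow_pos_of_pos hy0 _) hy'1
    obtain ⟨u', hu'⟩ : ∃ u', u' = Real.log y' := ⟨_, rfl⟩
    have hu1 : (1 + β) * u ≤ u' := by
      have h := Real.log_le_log (Real.rpow_pos_of_pos hy0 _) hy'1
      rw [Real.log_rpow hy0] at h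
      rw [hu, hu']
      exact h
    have hmu : (m : ℝ) * ((1 + β) * u) ≤ m * u' :=
      mul_le_mul_of_nonneg_left hu1 (by linarith)
    constructor
    · rw [← Real.log_le_log_iff hA0 (by positivity), Real.log_mul (by positivity) hP.ne',
        Real.log_pow, ← ha, ← hu', ← hp]
      rcases hcase with ⟨h3, -⟩ | ⟨h3, h4⟩
      · rw [h3] at hmu
        exact A3 hℓ hβ hβ16 hH' hG1 hG4 hGpos F1 F3 hρ e1 e2 h2 hLb hβL hmu
      · rw [h3] at hmu h4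
        exact B3 hβ16 hGpos hG5 hm1 hv0 hvm h1 hLb hβL h4 hmu
    · rw [← Real.log_le_log_iff (by positivity) (by positivity), Real.log_rpow hδ,
        Real.log_div hy'0.ne' (by positivity), Real.log_mul (by positivity) hP.ne', ← hg, ← hu',
        ← hp]
      have hlδ : Real.log δ = -L := by linarith
      rw [hlδ]
      rcases hcase with ⟨h3, -⟩ | ⟨h3, h4⟩
      · rw [h3] at hu1
        exact A4 hβ hβ16 ha0 hG4 hGpos hG7 F2 h2 hLb hβL hu1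
      · rw [h3] at hu1
        exact B4 hβ16 hGpos hG5 hG7 hm1 hv0 hvm hρ h2 hLb hu1

end Pool.Agent.H693.BT207
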